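import Mathlib

/-!
# Fourier critical points of the functions `f_{ν,1}`

Definitions for the problems MP_6fe4ed_an and MP_dd47c1_an and the analysis of the case `n = 1`.
-/

set_option autoImplicit false

open Finset Filter Topology

namespace Pool.Agent.X115.FCP

/-- The function `f_{ν,n}`. -/
noncomputable def f (ν : ℝ) (n : ℕ) (x : ℝ) : ℝ :=
  ∑' m : ℕ, Real.Gamma (2 * m + ν + 1) /
    (m.factorial * Real.Gamma (m + ν + 1) * Real.Gamma (2 * m + ν - n + 1)) * x ^ m

/-- The number `k` of critical zeros of `f^(l)` at `c`, when `c` is a zero of `f^(l)` of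
multiplicity `m`. -/
noncomputable def numCritical (f : ℝ → ℝ) (l m : ℕ) (c : ℝ) : ℕ :=
  open Classical in
  if iteratedDeriv (l - 1) f c = 0 then 0
  else if Even m then m / 2
  else if 0 < iteratedDeriv (l - 1) f c * iteratedDeriv (l + m) f c then (m + 1) / 2
  else (m - 1) / 2

/-- `c` is a zero of `f^(l)` of multiplicity `m`. -/
def IsZeroOfMult (f : ℝ → ℝ) (l m : ℕ) (c : ℝ) : Prop :=
  (∀ i < m, iteratedDeriv (l + i) f c = 0) ∧ iteratedDeriv (l + m) f c ≠ 0

/-- `c` is a Fourier critical point of `f`: for some `l ≥ 1` it carries a critical zero of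
`f^(l)`. -/
def IsFourierCritical (f : ℝ → ℝ) (c : ℝ) : Prop :=
  ∃ l m : ℕ, 1 ≤ l ∧ 1 ≤ m ∧ IsZeroOfMult f l m c ∧ 0 < numCritical f l m c

/-- If `f^(l-1)(c) f^(l+1)(c) < 0` at all real zeros `c` of all derivatives `f^(l)`, `l ≥ 1`, then
there are no Fourier critical points. -/
lemma no_critical {g : ℝ → ℝ}
    (h : ∀ j : ℕ, ∀ c : ℝ, iteratedDeriv (j + 1) g c = 0 →
      iteratedDeriv j g c * iteratedDeriv (j + 2) g c < 0) (c : ℝ) : ¬ IsFourierCritical g c := by
  rintro ⟨l, m, hl, hm, ⟨h1, h2⟩, h3⟩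
  obtain ⟨j, rfl⟩ : ∃ j, l = j + 1 := ⟨l - 1, by omega⟩
  have h4 := h1 0 (by omega)
  rw [add_zero] at h4
  have h5 := h j c h4
  have hm1 : m = 1 := by
    by_contra hne
    have h6 := h1 1 (by omega)
    have e : j + 1 + 1 = j + 2 := rfl
    rw [e] at h6
    rw [h6, mul_zero] at h5
    exact lt_irrefl _ h5
  subst hm1
  have e : j + 1 + 1 = j + 2 := rfl
  unfold numCritical at h3
  rw [Nat.add_sub_cancel, e] at h3
  have h6 : iteratedDeriv j g c ≠ 0 := by
    intro h0; rw [h0, zero_mul] at h5; exact lt_irrefl _ h5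
  rw [if_neg h6, if_neg (by decide), if_neg (not_lt.2 h5.le)] at h3
  exact absurd h3 (by norm_num)

/-! ## The hypergeometric series -/

/-- `(μ + 1)_m` -/
noncomputable def poch (μ : ℝ) (m : ℕ) : ℝ := ∏ i ∈ range m, (μ + 1 + i)

lemma poch_succ (μ : ℝ) (m : ℕ) : poch μ (m + 1) = poch μ m * (μ + 1 + m) := by
  unfold poch; rw [prod_range_succ]

lemma poch_succ' (μ : ℝ) (m : ℕ) : poch μ (m + 1) = (μ + 1) * poch (μ + 1) m := by
  unfold poch
  rw [prod_range_succ']
  simp only [Nat.cast_add, Nat.cast_one, Nat.cast_zero, add_zero]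
  rw [mul_comm]
  congr 1
  apply prod_congr rfl
  intro i _
  ring

/-- all `|μ + 1 + i|` are at least `δ` -/
def Sep (μ δ : ℝ) : Prop := 0 < δ ∧ ∀ i : ℕ, δ ≤ |μ + 1 + i|

lemma Sep.succ {μ δ : ℝ} (h : Sep μ δ) : Sep (μ + 1) δ := by
  refine ⟨h.1, fun i => ?_⟩
  have := h.2 (i + 1)
  push_cast at this
  rwa [show μ + 1 + 1 + (i : ℝ) = μ + 1 + (i + 1) by ring]

lemma Sep.ne {μ δ : ℝ} (h : Sep μ δ) : μ + 1 ≠ 0 := by
  have := h.2 0
  intro h0
  rw [Nat.cast_zero, add_zero, h0, abs_zero] at this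
  linarith [h.1]

lemma Sep.poch_ne {μ δ : ℝ} (h : Sep μ δ) (m : ℕ) : poch μ m ≠ 0 := by
  unfold poch
  rw [prod_ne_zero_iff]
  intro i _ h0
  have := h.2 i
  rw [h0, abs_zero] at this
  linarith [h.1]

lemma Sep.le_poch {μ δ : ℝ} (h : Sep μ δ) (m : ℕ) : δ ^ m ≤ |poch μ m| := by
  induction m with
  | zero => simp [poch]
  | succ m ih =>
    rw [poch_succ, abs_mul, pow_succ]
    exact mul_le_mul ih (h.2 m) h.1.le (abs_nonneg _)

/-- the coefficients -/
noncomputable def cf (μ : ℝ) (m : ℕ) : ℝ := 1 / (m.factorial * poch μ m)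

lemma cf_bound {μ δ : ℝ} (h : Sep μ δ) (m : ℕ) : |cf μ m| ≤ (1 / δ) ^ m / m.factorial := by
  unfold cf
  rw [abs_div, abs_one, abs_mul, Nat.abs_cast]
  have h1 := h.le_poch m
  have h2 : 0 < δ ^ m := pow_pos h.1 m
  rw [div_pow, one_pow, div_div, mul_comm (m.factorial : ℝ)]
  apply one_div_le_one_div_of_le (by positivity)
  exact mul_le_mul_of_nonneg_right h1 (by positivity)

/-- the series `0F1(; μ + 1; x)` -/
noncomputable def G (μ x : ℝ) : ℝ := ∑' m : ℕ, cf μ m * x ^ m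

lemma summable_cf {μ δ : ℝ} (h : Sep μ δ) (x : ℝ) : Summable (fun m => |cf μ m| * |x| ^ m) := by
  refine Summable.of_nonneg_of_le (fun m => by positivity) (fun m => ?_)
    (Real.summable_pow_div_factorial (|x| / δ))
  have h1 := cf_bound h m
  calc |cf μ m| * |x| ^ m ≤ (1 / δ) ^ m / m.factorial * |x| ^ m := by gcongr
    _ = _ := by rw [div_pow, div_pow, one_pow]; ring

lemma hasSum_G {μ δ : ℝ} (h : Sep μ δ) (x : ℝ) : HasSum (fun m => cf μ m * x ^ m) (G μ x) := by
  apply Summable.hasSum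
  apply Summable.of_norm
  refine (summable_cf h x).congr fun m => ?_
  rw [Real.norm_eq_abs, abs_mul, abs_pow]

lemma summable_deriv {μ δ : ℝ} (h : Sep μ δ) {r : ℝ} (hr : 1 ≤ r) :
    Summable (fun m : ℕ => |cf μ m| * (m * r ^ (m - 1))) := by
  refine Summable.of_nonneg_of_le (fun m => by positivity) (fun m => ?_)
    (summable_cf h (2 * r))
  have h1 : (m : ℝ) ≤ 2 ^ m := by exact_mod_cast Nat.lt_two_pow_self.le
  have h2 : r ^ (m - 1) ≤ r ^ m := pow_le_pow_right₀ hr (Nat.sub_le _ _)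
  rw [abs_of_nonneg (by positivity : (0:ℝ) ≤ 2 * r), mul_pow]
  apply mul_le_mul_of_nonneg_left _ (abs_nonneg _)
  exact mul_le_mul h1 h2 (by positivity) (by positivity)

lemma hasDeriv_G {μ δ : ℝ} (h : Sep μ δ) (x : ℝ) : HasDerivAt (G μ) (G (μ + 1) x / (μ + 1)) x := by
  set r : ℝ := |x| + 1 with hr
  have hr1 : 1 ≤ r := by rw [hr]; linarith [abs_nonneg x]
  have h1 : HasDerivAt (fun t : ℝ => ∑' m : ℕ, cf μ m * t ^ m)
      (∑' m : ℕ, cf μ m * (m * x ^ (m - 1))) x := by
    refine hasDerivAt_tsum_of_isPreconnected (g := fun (m : ℕ) (t : ℝ) => cf μ m * t ^ m)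
      (g' := fun (m : ℕ) (t : ℝ) => cf μ m * (m * t ^ (m - 1))) (t := Metric.ball (0 : ℝ) r)
      (summable_deriv h hr1) Metric.isOpen_ball (convex_ball _ _).isPreconnected ?_ ?_
      (y₀ := 0) (by simpa using by linarith) ?_ (by simp [hr])
    · intro i y _
      exact (hasDerivAt_pow i y).const_mul (cf μ i)
    · intro i y hy
      have hy' : |y| ≤ r := by
        have : |y| < r := by simpa using hy
        exact this.le
      rw [norm_mul, norm_mul, norm_pow, Real.norm_eq_abs, Real.norm_eq_abs, Real.norm_eq_abs,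
        Nat.abs_cast]
      gcongr
    · exact (hasSum_G h 0).summable
  have h2 : ∑' m : ℕ, cf μ m * (m * x ^ (m - 1)) = G (μ + 1) x / (μ + 1) := by
    have h3 : HasSum (fun m : ℕ => cf μ (m + 1) * ((m + 1 : ℕ) * x ^ (m + 1 - 1)))
        (G (μ + 1) x / (μ + 1)) := by
      have h4 := (hasSum_G h.succ x).div_const (μ + 1)
      have h5 : (fun m : ℕ => cf μ (m + 1) * ((m + 1 : ℕ) * x ^ (m + 1 - 1))) =
          fun m : ℕ => cf (μ + 1) m * x ^ m / (μ + 1) := by
        funext m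
        unfold cf
        rw [poch_succ', Nat.factorial_succ, Nat.add_sub_cancel]
        have h6 := h.ne
        have h7 := h.succ.poch_ne m
        have h8 : (m.factorial : ℝ) ≠ 0 := by positivity
        have h9 : ((m : ℝ) + 1) ≠ 0 := by positivity
        push_cast
        field_simp
      rw [h5]; exact h4
    have h4 := (hasSum_nat_add_iff (f := fun m : ℕ => cf μ m * (m * x ^ (m - 1))) 1).1 h3
    simp only [range_one, sum_singleton, Nat.cast_zero, zero_mul, mul_zero, add_zero] at h4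
    exact h4.tsum_eq
  rw [← h2]
  exact h1

/-- the three term relation, equivalent to the differential equation -/
lemma three_term {μ δ : ℝ} (h : Sep μ δ) (x : ℝ) :
    G μ x = G (μ + 1) x + x * G (μ + 2) x / ((μ + 1) * (μ + 2)) := by
  have h6 := h.ne
  have h6' := h.succ.ne
  have e2 : μ + 1 + 1 = μ + 2 := by ring
  rw [e2] at h6'
  have hs2 : Sep (μ + 2) δ := by rw [← e2]; exact h.succ.succ
  have h1 : HasSum (fun m : ℕ => cf μ (m + 1) * x ^ (m + 1) - cf (μ + 1) (m + 1) * x ^ (m + 1))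
      (x * G (μ + 2) x / ((μ + 1) * (μ + 2))) := by
    have h4 := ((hasSum_G hs2 x).mul_left x).div_const ((μ + 1) * (μ + 2))
    have h5 : (fun m : ℕ => cf μ (m + 1) * x ^ (m + 1) - cf (μ + 1) (m + 1) * x ^ (m + 1)) =
        fun m : ℕ => x * (cf (μ + 2) m * x ^ m) / ((μ + 1) * (μ + 2)) := by
      funext m
      have a1 : poch μ (m + 1) = (μ + 1) * poch (μ + 1) m := poch_succ' μ m
      have a2 : poch (μ + 1) (m + 1) = poch (μ + 1) m * (μ + 1 + 1 + m) := poch_succ _ m
      have a3 : poch (μ + 1) (m + 1) = (μ + 1 + 1) * poch (μ + 1 + 1) m := poch_succ' _ m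
      have h7 := h.succ.poch_ne m
      have h7' := hs2.poch_ne m
      have h8 : (m.factorial : ℝ) ≠ 0 := by positivity
      have h9 : ((m : ℝ) + 1) ≠ 0 := by positivity
      rw [e2] at a2 a3
      have a4 : μ + 2 + m ≠ 0 := by
        intro h0
        rw [a2, h0, mul_zero] at a3
        exact mul_ne_zero h6' h7' a3.symm
      have a5 : poch (μ + 1) m = (μ + 2) * poch (μ + 2) m / (μ + 2 + m) := by
        rw [eq_div_iff a4, ← a2, a3]
      unfold cf
      rw [a1, a3, a5, Nat.factorial_succ]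
      push_cast
      field_simp
      ring
    rw [h5]; exact h4
  have h2 := (hasSum_nat_add_iff (f := fun m : ℕ => cf μ m * x ^ m - cf (μ + 1) m * x ^ m) 1).1 h1
  have h3 := (hasSum_G h x).sub (hasSum_G h.succ x)
  have h4 := h3.unique h2
  have h5 : ∑ i ∈ range 1, (cf μ i * x ^ i - cf (μ + 1) i * x ^ i) = 0 := by
    simp [cf, poch]
  rw [h5, add_zero] at h4
  linarith

/-- The function `F_j = 2 x G' + (ν + 2 j) G`, `μ = ν + j`. -/
noncomputable def F (ν : ℝ) (j : ℕ) (x : ℝ) : ℝ :=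
  2 * x * (G (ν + j + 1) x / (ν + j + 1)) + (ν + 2 * j) * G (ν + j) x

lemma Sep.add {μ δ : ℝ} (h : Sep μ δ) (j : ℕ) : Sep (μ + j) δ := by
  induction j with
  | zero => simpa using h
  | succ j ih =>
    have := ih.succ
    push_cast
    rwa [← add_assoc]

lemma hasDeriv_F {ν δ : ℝ} (h : Sep ν δ) (j : ℕ) (x : ℝ) :
    HasDerivAt (F ν j) (F ν (j + 1) x / (ν + j + 1)) x := by
  have hj := h.add j
  have h6 := hj.ne
  have h7 := hj.succ.ne
  have d1 := hasDeriv_G hj x
  have d2 := hasDeriv_G hj.succ x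
  have h3 := ((((hasDerivAt_id x).const_mul 2).mul (d2.div_const (ν + j + 1)))).add
    (d1.const_mul (ν + 2 * j))
  have h4 : HasDerivAt (F ν j) (2 * 1 * (G (ν + j + 1) x / (ν + j + 1)) +
      2 * x * (G (ν + j + 1 + 1) x / (ν + j + 1 + 1) / (ν + j + 1)) +
      (ν + 2 * j) * (G (ν + j + 1) x / (ν + j + 1))) x := h3
  have h5 : F ν (j + 1) x / (ν + j + 1) = 2 * 1 * (G (ν + j + 1) x / (ν + j + 1)) +
      2 * x * (G (ν + j + 1 + 1) x / (ν + j + 1 + 1) / (ν + j + 1)) +
      (ν + 2 * j) * (G (ν + j + 1) x / (ν + j + 1)) := by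
    unfold F
    push_cast
    have e1 : ν + (j + 1) + 1 = ν + j + 1 + 1 := by ring
    have e2 : ν + ((j : ℝ) + 1) = ν + j + 1 := by ring
    rw [e1, e2]
    field_simp
    ring
  rw [h5]; exact h4

/-- the derivative in terms of `G`, `G'` -/
lemma F_succ_eq {ν δ : ℝ} (h : Sep ν δ) (j : ℕ) (x : ℝ) :
    F ν (j + 1) x / (ν + j + 1) = 2 * G (ν + j) x - ν * (G (ν + j + 1) x / (ν + j + 1)) := by
  have hj := h.add j
  have h6 := hj.ne
  have h7 := hj.succ.ne
  have h8 := three_term hj x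
  have e0 : ν + j + 2 = ν + j + 1 + 1 := by ring
  rw [e0] at h8
  unfold F
  push_cast
  have e1 : ν + (j + 1) + 1 = ν + j + 1 + 1 := by ring
  have e2 : ν + ((j : ℝ) + 1) = ν + j + 1 := by ring
  rw [e1, e2, h8]
  field_simp
  ring

/-- iterated derivatives of a function proportional to `F_0` -/
lemma iter_eq {ν δ K : ℝ} (h : Sep ν δ) {g : ℝ → ℝ} (hg : ∀ x, g x = K * F ν 0 x) (j : ℕ) :
    ∀ x, iteratedDeriv j g x = K / poch ν j * F ν j x := by
  induction j with
  | zero => intro x; rw [iteratedDeriv_zero, hg]; simp [poch]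
  | succ j ih =>
    intro x
    have h1 : iteratedDeriv j g = fun x => K / poch ν j * F ν j x := funext ih
    rw [iteratedDeriv_succ, h1, ((hasDeriv_F h j x).const_mul _).deriv, poch_succ]
    have h2 : ν + 1 + (j : ℝ) = ν + j + 1 := by ring
    have h3 := h.poch_ne j
    have h4 := (h.add j).ne
    rw [h2]
    field_simp

/-- `G` and its derivative do not vanish together at a negative point -/
lemma not_both_zero {μ δ : ℝ} (h : Sep μ δ) {c : ℝ} (hc : c < 0) (h0 : G μ c = 0)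
    (h1 : G (μ + 1) c / (μ + 1) = 0) : False := by
  obtain ⟨N, hN⟩ := exists_nat_gt (2 * μ + 1)
  set E : ℝ → ℝ := fun x => x * (G (μ + 1) x / (μ + 1)) ^ 2 - G μ x ^ 2 with hE
  have hEd : ∀ x, HasDerivAt E (-(2 * μ + 1) * (G (μ + 1) x / (μ + 1)) ^ 2) x := by
    intro x
    have d1 := hasDeriv_G h x
    have d2 := (hasDeriv_G h.succ x).div_const (μ + 1)
    have h3 := ((hasDerivAt_id x).mul (d2.pow 2)).sub (d1.pow 2)
    have h8 := three_term h x
    have h6 := h.ne
    have h7 := h.succ.ne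
    have e2 : μ + 2 = μ + 1 + 1 := by ring
    rw [e2] at h8
    refine h3.congr_deriv ?_
    simp only [id]
    simp only [Pi.pow_apply]
    have key : x * (G (μ + 1 + 1) x / (μ + 1 + 1) / (μ + 1)) = G μ x - G (μ + 1) x := by
      rw [h8]; field_simp; ring
    have ha : G (μ + 1) x = (μ + 1) * (G (μ + 1) x / (μ + 1)) := by field_simp
    set g1 := G (μ + 1) x / (μ + 1)
    set g2 := G (μ + 1 + 1) x / (μ + 1 + 1) / (μ + 1)
    push_cast
    linear_combination (2 * g1) * key - 2 * g1 * ha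
  set W : ℝ → ℝ := fun x => (-x) ^ (N + 1) * E x with hW
  have hWd : ∀ x, HasDerivAt W ((-x) ^ N * (-((N : ℝ) + 1) * E x + (-x) *
      (-(2 * μ + 1) * (G (μ + 1) x / (μ + 1)) ^ 2))) x := by
    intro x
    have h3 := ((hasDerivAt_neg x).pow (N + 1)).mul (hEd x)
    refine h3.congr_deriv ?_
    simp only [Pi.pow_apply]
    push_cast
    ring
  have hEneg : ∀ x, x ≤ 0 → E x ≤ 0 := by
    intro x hx
    rw [hE]
    simp only
    nlinarith [sq_nonneg (G (μ + 1) x / (μ + 1)), sq_nonneg (G μ x)]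
  have hmono : MonotoneOn W (Set.Iic 0) := by
    apply monotoneOn_of_deriv_nonneg (convex_Iic 0)
    · exact fun x _ => (hWd x).continuousAt.continuousWithinAt
    · exact fun x _ => (hWd x).differentiableAt.differentiableWithinAt
    · intro x hx
      rw [interior_Iic] at hx
      have hx : x < 0 := hx
      rw [(hWd x).deriv]
      apply mul_nonneg (pow_nonneg (by linarith) _)
      have e : -((N : ℝ) + 1) * E x + (-x) * (-(2 * μ + 1) * (G (μ + 1) x / (μ + 1)) ^ 2) =
          ((N : ℝ) + 1 - (2 * μ + 1)) * ((-x) * (G (μ + 1) x / (μ + 1)) ^ 2) +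
          ((N : ℝ) + 1) * G μ x ^ 2 := by
        rw [hE]; ring
      rw [e]
      have h9 : 0 ≤ (-x) * (G (μ + 1) x / (μ + 1)) ^ 2 :=
        mul_nonneg (by linarith) (sq_nonneg _)
      have h10 : 0 ≤ (N : ℝ) + 1 - (2 * μ + 1) := by linarith
      have h11 : (0:ℝ) ≤ (N : ℝ) + 1 := by positivity
      nlinarith [mul_nonneg h10 h9, mul_nonneg h11 (sq_nonneg (G μ x))]
  have hEc : E c = 0 := by rw [hE]; simp only; rw [h0, h1]; ring
  have hE0 : ∀ x, c < x → x < 0 → E x = 0 := by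
    intro x hcx hx0
    have h3 := hmono (show c ∈ Set.Iic 0 from hc.le) (show x ∈ Set.Iic 0 from hx0.le) hcx.le
    rw [hW] at h3
    simp only at h3
    rw [hEc, mul_zero] at h3
    have h4 : 0 < (-x) ^ (N + 1) := pow_pos (by linarith) _
    have h5 := hEneg x hx0.le
    have h6 : 0 ≤ E x := by
      by_contra hcon
      push Not at hcon
      have := mul_neg_of_pos_of_neg h4 hcon
      linarith
    linarith
  have hG0 : G μ 0 = 1 := by
    have h3 := hasSum_G h 0
    have h4 : HasSum (fun m : ℕ => cf μ m * (0 : ℝ) ^ m) (cf μ 0 * (0:ℝ) ^ 0) := by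
      apply hasSum_single
      intro m hm; simp [hm]
    rw [h3.unique h4]; simp [cf, poch]
  have hE00 : E 0 = -1 := by rw [hE]; simp [hG0]
  have hcont : Tendsto E (𝓝[<] 0) (𝓝 (E 0)) := (hEd 0).continuousAt.continuousWithinAt
  have hz : Tendsto E (𝓝[<] 0) (𝓝 0) := by
    refine tendsto_const_nhds.congr' ?_
    filter_upwards [Ioo_mem_nhdsLT hc] with x hx
    exact (hE0 x hx.1 hx.2).symm
  have := tendsto_nhds_unique hcont hz
  rw [hE00] at this
  norm_num at this

/-- The sign of `F F''` at a negative zero of `F'`. -/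
lemma sign_at_critical {ν δ : ℝ} (h : Sep ν δ) (j : ℕ) {c : ℝ} (hc : c < 0)
    (h0 : F ν (j + 1) c = 0)
    (hs : 0 < (c + ν * (ν + 2 * j) / 4) * (c + ν * (ν + 2 * j + 2) / 4)) :
    F ν j c * (F ν (j + 2) c / ((ν + j + 1) * (ν + j + 2))) < 0 := by
  have hj := h.add j
  have h6 := hj.ne
  have h7 := hj.succ.ne
  have e0 : ν + j + 1 + 1 = ν + j + 2 := by ring
  rw [e0] at h7
  have k1 := F_succ_eq h j c
  rw [h0, zero_div] at k1
  have k2 := F_succ_eq h (j + 1) c
  set g1 := G (ν + j + 1) c / (ν + j + 1) with hg1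
  set g0 := G (ν + j) c with hg0
  have hG : g0 = ν / 2 * g1 := by linarith
  have hne : g1 ≠ 0 := by
    intro hz
    apply not_both_zero hj hc (by rw [← hg0, hG, hz, mul_zero])
    exact hz
  -- second derivative
  have h8 := three_term hj c
  have k3 : G (ν + j + 2) c / ((ν + j + 1) * (ν + j + 2)) = (g0 - (ν + j + 1) * g1) / c := by
    rw [eq_div_iff hc.ne]
    have e3 : (ν + j + 1) * g1 = G (ν + j + 1) c := by rw [hg1]; field_simp
    rw [e3, hg0, h8]; ring
  have k4 : F ν (j + 2) c / ((ν + j + 1) * (ν + j + 2)) = 2 * g1 - ν * ((g0 - (ν + j + 1) * g1) / c) := by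
    have e4 : F ν (j + 2) c / ((ν + j + 1) * (ν + j + 2)) =
        (F ν (j + 1 + 1) c / (ν + ((j + 1 : ℕ) : ℝ) + 1)) / (ν + j + 1) := by
      push_cast
      have e5 : ν + ((j : ℝ) + 1) + 1 = ν + j + 2 := by ring
      rw [e5, div_div, mul_comm (ν + j + 2)]
    rw [e4, k2]
    push_cast
    have e5 : ν + ((j : ℝ) + 1) + 1 = ν + j + 2 := by ring
    have e6 : ν + ((j : ℝ) + 1) = ν + j + 1 := by ring
    rw [e5, e6, ← k3, hg1]
    field_simp
  have k5 : F ν j c = 2 * g1 * (c + ν * (ν + 2 * j) / 4) := by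
    unfold F
    rw [← hg1, ← hg0, hG]; ring
  have k6 : F ν (j + 2) c / ((ν + j + 1) * (ν + j + 2)) =
      2 * g1 * (c + ν * (ν + 2 * j + 2) / 4) / c := by
    rw [k4, hG]
    have := hc.ne
    field_simp
    ring
  rw [k5, k6]
  have e7 : 2 * g1 * (c + ν * (ν + 2 * j) / 4) * (2 * g1 * (c + ν * (ν + 2 * j + 2) / 4) / c) =
      4 * g1 ^ 2 * ((c + ν * (ν + 2 * j) / 4) * (c + ν * (ν + 2 * j + 2) / 4)) / c := by ring
  rw [e7]
  apply div_neg_of_pos_of_neg _ hc
  have : 0 < g1 ^ 2 := by positivity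
  positivity

/-- the series of `F` -/
lemma hasSum_F {ν δ : ℝ} (h : Sep ν δ) (j : ℕ) (x : ℝ) :
    HasSum (fun m : ℕ => (2 * m + (ν + 2 * j)) * cf (ν + j) m * x ^ m) (F ν j x) := by
  have hj := h.add j
  have h1 := (hasSum_G hj x).mul_left (ν + 2 * j)
  have h2 : HasSum (fun m : ℕ => 2 * m * cf (ν + j) m * x ^ m)
      (2 * x * (G (ν + j + 1) x / (ν + j + 1))) := by
    have h3 := ((hasSum_G hj.succ x).div_const (ν + j + 1)).mul_left (2 * x)
    have h4 : (fun m : ℕ => 2 * x * (cf (ν + j + 1) m * x ^ m / (ν + j + 1))) =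
        fun m : ℕ => 2 * ((m + 1 : ℕ) : ℝ) * cf (ν + j) (m + 1) * x ^ (m + 1) := by
      funext m
      unfold cf
      rw [poch_succ', Nat.factorial_succ]
      have h6 := hj.ne
      have h7 := hj.succ.poch_ne m
      have h8 : (m.factorial : ℝ) ≠ 0 := by positivity
      have h9 : ((m : ℝ) + 1) ≠ 0 := by positivity
      push_cast
      field_simp
      ring
    rw [h4] at h3
    have h5 := (hasSum_nat_add_iff (f := fun m : ℕ => 2 * (m : ℝ) * cf (ν + j) m * x ^ m) 1).1 h3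
    simpa using h5
  have h3 := h2.add h1
  unfold F
  have h4 : (fun m : ℕ => (2 * m + (ν + 2 * j)) * cf (ν + j) m * x ^ m) = fun m : ℕ =>
      2 * m * cf (ν + j) m * x ^ m + (ν + 2 * j) * (cf (ν + j) m * x ^ m) := by
    funext m; ring
  rw [h4]; exact h3

/-- `f_{ν,1}` is proportional to `F_0`. -/
lemma f_one {ν : ℝ} (hν : ∀ k : ℤ, ν ≠ k) {δ : ℝ} (h : Sep ν δ) (x : ℝ) :
    f ν 1 x = 1 / Real.Gamma (ν + 1) * F ν 0 x := by
  have h0 : Real.Gamma (ν + 1) ≠ 0 := by
    apply Real.Gamma_ne_zero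
    intro m hm
    apply hν (-(m : ℤ) - 1)
    push_cast
    linarith
  have h1 : ∀ m : ℕ, Real.Gamma (m + ν + 1) = poch ν m * Real.Gamma (ν + 1) := by
    intro m
    induction m with
    | zero => simp [poch]
    | succ m ih =>
      have e : ((m + 1 : ℕ) : ℝ) + ν + 1 = (m + ν + 1) + 1 := by push_cast; ring
      rw [e, Real.Gamma_add_one, ih, poch_succ]
      · ring
      · intro hz
        apply hν (-(m : ℤ) - 1)
        push_cast
        linarith
  have h2 : ∀ m : ℕ, Real.Gamma (2 * m + ν + 1) /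
      (m.factorial * Real.Gamma (m + ν + 1) * Real.Gamma (2 * m + ν - (1 : ℕ) + 1)) * x ^ m =
      1 / Real.Gamma (ν + 1) * ((2 * m + (ν + 2 * (0 : ℕ))) * cf (ν + (0 : ℕ)) m * x ^ m) := by
    intro m
    have e : 2 * (m : ℝ) + ν - ((1 : ℕ) : ℝ) + 1 = 2 * m + ν := by push_cast; ring
    have hz : 2 * (m : ℝ) + ν ≠ 0 := by
      intro hz
      apply hν (-(2 * m : ℤ))
      push_cast
      linarith
    have hG : Real.Gamma (2 * m + ν) ≠ 0 := by
      apply Real.Gamma_ne_zero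
      intro k hk
      apply hν (-(k : ℤ) - 2 * m)
      push_cast
      linarith
    have h5 := h.poch_ne m
    rw [e, Real.Gamma_add_one hz, h1]
    unfold cf
    simp only [Nat.cast_zero, mul_zero, add_zero]
    have h8 : (m.factorial : ℝ) ≠ 0 := by positivity
    field_simp
  unfold f
  rw [tsum_congr h2, tsum_mul_left, (hasSum_F h 0 x).tsum_eq]

/-- the terms of the series of `F_j` -/
noncomputable def tm (ν : ℝ) (j : ℕ) (c : ℝ) (m : ℕ) : ℝ :=
  (2 * m + (ν + 2 * j)) * cf (ν + j) m * c ^ m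

/-- estimate of the tail by a geometric series -/
lemma tail_bound {ν δ : ℝ} (h : Sep ν δ) (j : ℕ) (c : ℝ) (N : ℕ) {q : ℝ} (hq0 : 0 ≤ q) (hq : q < 1)
    (hr : ∀ m : ℕ, N ≤ m → |tm ν j c (m + 1)| ≤ q * |tm ν j c m|) :
    |F ν j c - ∑ m ∈ range N, tm ν j c m| ≤ |tm ν j c N| / (1 - q) := by
  have h1 := hasSum_F h j c
  have h2 : HasSum (fun m => tm ν j c (m + N)) (F ν j c - ∑ m ∈ range N, tm ν j c m) :=
    (hasSum_nat_add_iff' N).2 h1
  have h3 : ∀ k : ℕ, |tm ν j c (k + N)| ≤ |tm ν j c N| * q ^ k := by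
    intro k
    induction k with
    | zero => simp
    | succ k ih =>
      have h4 := hr (k + N) (by omega)
      have e : k + 1 + N = k + N + 1 := by ring
      rw [e]
      calc _ ≤ q * |tm ν j c (k + N)| := h4
        _ ≤ q * (|tm ν j c N| * q ^ k) := mul_le_mul_of_nonneg_left ih hq0
        _ = _ := by ring
  have h5 := (hasSum_geometric_of_lt_one hq0 hq).mul_left |tm ν j c N|
  rw [← h2.tsum_eq, ← Real.norm_eq_abs]
  have h6 := tsum_of_norm_bounded h5 (fun k => by rw [Real.norm_eq_abs]; exact h3 k)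
  rw [div_eq_mul_inv]
  exact h6

lemma tm_succ {ν δ : ℝ} (h : Sep ν δ) (j : ℕ) (c : ℝ) (m : ℕ) (hne : 2 * (m : ℝ) + (ν + 2 * j) ≠ 0) :
    tm ν j c (m + 1) = tm ν j c m * (c * (2 * (m + 1) + (ν + 2 * j)) /
      ((2 * m + (ν + 2 * j)) * (m + 1) * (ν + j + 1 + m))) := by
  unfold tm cf
  rw [poch_succ, Nat.factorial_succ]
  have h1 := (h.add j).poch_ne m
  have h2 := (h.add j).poch_ne (m + 1)
  rw [poch_succ] at h2
  have h3 : ν + j + 1 + m ≠ 0 := fun h0 => h2 (by rw [h0, mul_zero])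
  have h4 : (m.factorial : ℝ) ≠ 0 := by positivity
  have h5 : (m : ℝ) + 1 ≠ 0 := by positivity
  push_cast
  field_simp
  ring

/-- all terms nonnegative, the first positive -/
lemma F_pos {ν δ : ℝ} (h : Sep ν δ) (j : ℕ) {c : ℝ} (hc : 0 ≤ c) (h0 : 0 < ν + 2 * j)
    (h1 : 0 < ν + j + 1) : 0 < F ν j c := by
  have h2 := hasSum_F h j c
  have h3 : ∀ m : ℕ, 0 ≤ (2 * m + (ν + 2 * j)) * cf (ν + j) m * c ^ m := by
    intro m
    have h4 : 0 < poch (ν + j) m := by
      unfold poch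
      apply prod_pos
      intro i _
      positivity
    have h5 : 0 ≤ cf (ν + j) m := by unfold cf; positivity
    have h6 : (0 : ℝ) ≤ 2 * m + (ν + 2 * j) := by positivity
    positivity
  have h7 := sum_le_hasSum (range 1) (fun m _ => h3 m) h2
  simp only [range_one, sum_singleton, pow_zero, mul_one, Nat.cast_zero, mul_zero, zero_add] at h7
  have h8 : cf (ν + j) 0 = 1 := by simp [cf, poch]
  rw [h8, mul_one] at h7
  linarith

/-- criterion for the absence of Fourier critical points -/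
lemma no_critical_of {ν δ : ℝ} (h : Sep ν δ) (hν : ∀ k : ℤ, ν ≠ k)
    (hz : ∀ (j : ℕ) (c : ℝ), F ν (j + 1) c = 0 → c < 0 ∧
      0 < (c + ν * (ν + 2 * j) / 4) * (c + ν * (ν + 2 * j + 2) / 4)) (c : ℝ) :
    ¬ IsFourierCritical (f ν 1) c := by
  apply no_critical
  intro j c hc
  have hG : Real.Gamma (ν + 1) ≠ 0 := by
    apply Real.Gamma_ne_zero
    intro m hm
    apply hν (-(m : ℤ) - 1)
    push_cast
    linarith
  have hit := fun j => iter_eq h (g := f ν 1) (fun x => f_one hν h x) j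
  have hp := h.poch_ne j
  have hK : 1 / Real.Gamma (ν + 1) ≠ 0 := by positivity
  rw [hit] at hc
  have hF : F ν (j + 1) c = 0 := by
    rcases mul_eq_zero.1 hc with h1 | h1
    · exact absurd h1 (div_ne_zero hK (h.poch_ne _))
    · exact h1
  obtain ⟨h1, h2⟩ := hz j c hF
  have h3 := sign_at_critical h j h1 hF h2
  rw [hit, hit]
  set K := 1 / Real.Gamma (ν + 1)
  have e : K / poch ν j * F ν j c * (K / poch ν (j + 2) * F ν (j + 2) c) =
      (K / poch ν j) ^ 2 * (F ν j c * (F ν (j + 2) c / ((ν + j + 1) * (ν + j + 2)))) := by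
    have e1 : poch ν (j + 2) = poch ν j * (ν + 1 + j) * (ν + 1 + ((j + 1 : ℕ) : ℝ)) := by
      rw [show j + 2 = (j + 1) + 1 from rfl, poch_succ, poch_succ]
    have e2 : ν + 1 + (j : ℝ) = ν + j + 1 := by ring
    have e3 : ν + 1 + ((j + 1 : ℕ) : ℝ) = ν + j + 2 := by push_cast; ring
    rw [e1, e2, e3]
    have h6 := (h.add j).ne
    have h7 := (h.add j).succ.ne
    rw [show ν + (j : ℝ) + 1 + 1 = ν + j + 2 by ring] at h7
    field_simp
  rw [e]
  apply mul_neg_of_pos_of_neg _ h3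
  have : K / poch ν j ≠ 0 := div_ne_zero hK hp
  positivity

end Pool.Agent.X115.FCP
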