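import Mathlib
import Pool.Agent.X115.FCP

/-!
# Reality of the zeros of combinations of `0F1` and its derivative

`K μ` is the entire function `0F1(; μ + 1; z)`.  Let `μ > -1` and let `B`, `C` be real polynomials of
degree at most one.  The equation `B(z) z K'(z) = C(z) K(z)` has at most one pair of nonreal
solutions, and it has none as soon as it has a real solution `q` of the wrong signature.
-/

set_option autoImplicit false

open Finset Filter Topology Pool.Agent.X115.FCP MeasureTheory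

namespace Pool.Agent.X115.BZ

/-- the entire function `0F1(; μ + 1; z)` -/
noncomputable def K (μ : ℝ) (z : ℂ) : ℂ := ∑' m : ℕ, (cf μ m : ℂ) * z ^ m

lemma summable_K {μ δ : ℝ} (h : Sep μ δ) (z : ℂ) : Summable (fun m => (cf μ m : ℂ) * z ^ m) := by
  apply Summable.of_norm
  refine (summable_cf h ‖z‖).congr fun m => ?_
  rw [norm_mul, norm_pow, Complex.norm_real, Real.norm_eq_abs, abs_norm]

lemma hasSum_K {μ δ : ℝ} (h : Sep μ δ) (z : ℂ) : HasSum (fun m => (cf μ m : ℂ) * z ^ m) (K μ z) :=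
  (summable_K h z).hasSum

lemma cf_succ {μ δ : ℝ} (h : Sep μ δ) (m : ℕ) :
    ((m : ℝ) + 1) * cf μ (m + 1) = cf (μ + 1) m / (μ + 1) := by
  unfold cf
  rw [poch_succ', Nat.factorial_succ]
  have h6 := h.ne
  have h7 := h.succ.poch_ne m
  have h8 : (m.factorial : ℝ) ≠ 0 := by positivity
  have h9 : ((m : ℝ) + 1) ≠ 0 := by positivity
  push_cast
  field_simp

lemma cf_succ' {μ δ : ℝ} (h : Sep μ δ) (m : ℕ) :
    ((m : ℝ) + 1) * (μ + 1 + m) * cf μ (m + 1) = cf μ m := by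
  unfold cf
  rw [poch_succ, Nat.factorial_succ]
  have h7 := h.poch_ne m
  have h6 := h.poch_ne (m + 1)
  rw [poch_succ] at h6
  have h5 : μ + 1 + m ≠ 0 := fun h0 => h6 (by rw [h0, mul_zero])
  have h8 : (m.factorial : ℝ) ≠ 0 := by positivity
  have h9 : ((m : ℝ) + 1) ≠ 0 := by positivity
  push_cast
  field_simp

lemma hasDeriv_K {μ δ : ℝ} (h : Sep μ δ) (z : ℂ) :
    HasDerivAt (K μ) (K (μ + 1) z / ((μ + 1 : ℝ) : ℂ)) z := by
  set r : ℝ := ‖z‖ + 1 with hr
  have hr1 : 1 ≤ r := by rw [hr]; linarith [norm_nonneg z]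
  have h1 : HasDerivAt (fun t : ℂ => ∑' m : ℕ, (cf μ m : ℂ) * t ^ m)
      (∑' m : ℕ, (cf μ m : ℂ) * (m * z ^ (m - 1))) z := by
    refine hasDerivAt_tsum_of_isPreconnected (g := fun (m : ℕ) (t : ℂ) => (cf μ m : ℂ) * t ^ m)
      (g' := fun (m : ℕ) (t : ℂ) => (cf μ m : ℂ) * (m * t ^ (m - 1))) (t := Metric.ball (0 : ℂ) r)
      (summable_deriv h hr1) Metric.isOpen_ball (convex_ball _ _).isPreconnected ?_ ?_
      (y₀ := 0) (by simpa using by linarith) ?_ (by simp [hr])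
    · intro i y _
      exact (hasDerivAt_pow i y).const_mul (cf μ i : ℂ)
    · intro i y hy
      have hy' : ‖y‖ ≤ r := by
        have : ‖y‖ < r := by simpa using hy
        exact this.le
      rw [norm_mul, norm_mul, norm_pow, Complex.norm_real, Real.norm_eq_abs, Complex.norm_natCast]
      gcongr
    · exact summable_K h 0
  have h2 : ∑' m : ℕ, (cf μ m : ℂ) * (m * z ^ (m - 1)) = K (μ + 1) z / ((μ + 1 : ℝ) : ℂ) := by
    have h3 : HasSum (fun m : ℕ => (cf μ (m + 1) : ℂ) * ((m + 1 : ℕ) * z ^ (m + 1 - 1)))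
        (K (μ + 1) z / ((μ + 1 : ℝ) : ℂ)) := by
      have h4 := (hasSum_K h.succ z).div_const ((μ + 1 : ℝ) : ℂ)
      have h5 : (fun m : ℕ => (cf μ (m + 1) : ℂ) * ((m + 1 : ℕ) * z ^ (m + 1 - 1))) =
          fun m : ℕ => (cf (μ + 1) m : ℂ) * z ^ m / ((μ + 1 : ℝ) : ℂ) := by
        funext m
        have h6 := congrArg (fun t : ℝ => (t : ℂ)) (cf_succ h m)
        simp only [Complex.ofReal_mul, Complex.ofReal_add, Complex.ofReal_natCast,
          Complex.ofReal_one, Complex.ofReal_div] at h6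
        rw [Nat.add_sub_cancel]
        push_cast
        linear_combination z ^ m * h6
      rw [h5]; exact h4
    have h4 := (hasSum_nat_add_iff (f := fun m : ℕ => (cf μ m : ℂ) * (m * z ^ (m - 1))) 1).1 h3
    simp only [range_one, sum_singleton, Nat.cast_zero, zero_mul, mul_zero, add_zero] at h4
    exact h4.tsum_eq
  rw [← h2]
  exact h1

lemma K_ofReal (μ x : ℝ) : K μ (x : ℂ) = (G μ x : ℂ) := by
  unfold K G
  rw [Complex.ofReal_tsum]
  refine tsum_congr fun m => ?_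
  push_cast
  rfl

lemma K_conj (μ : ℝ) (z : ℂ) : K μ ((starRingEnd ℂ) z) = (starRingEnd ℂ) (K μ z) := by
  unfold K
  rw [Complex.conj_tsum]
  refine tsum_congr fun m => ?_
  simp

lemma K_zero (μ : ℝ) : K μ 0 = 1 := by
  unfold K
  rw [tsum_eq_single 0]
  · simp [cf, poch]
  · intro m hm
    simp [hm]

/-- the series of `z K'` -/
lemma hasSum_theta {μ δ : ℝ} (h : Sep μ δ) (z : ℂ) :
    HasSum (fun m : ℕ => (m : ℂ) * (cf μ m : ℂ) * z ^ m) (z * (K (μ + 1) z / ((μ + 1 : ℝ) : ℂ))) := by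
  have h3 := ((hasSum_K h.succ z).div_const ((μ + 1 : ℝ) : ℂ)).mul_left z
  have h4 : (fun m : ℕ => z * ((cf (μ + 1) m : ℂ) * z ^ m / ((μ + 1 : ℝ) : ℂ))) =
      fun m : ℕ => ((m + 1 : ℕ) : ℂ) * (cf μ (m + 1) : ℂ) * z ^ (m + 1) := by
    funext m
    have h6 := congrArg (fun t : ℝ => (t : ℂ)) (cf_succ h m)
    simp only [Complex.ofReal_mul, Complex.ofReal_add, Complex.ofReal_natCast,
      Complex.ofReal_one, Complex.ofReal_div] at h6
    push_cast
    linear_combination (-z ^ (m + 1)) * h6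
  rw [h4] at h3
  have h5 := (hasSum_nat_add_iff (f := fun m : ℕ => (m : ℂ) * (cf μ m : ℂ) * z ^ m) 1).1 h3
  simpa using h5

/-- the series of `z K` -/
lemma hasSum_zK {μ δ : ℝ} (h : Sep μ δ) (z : ℂ) :
    HasSum (fun m : ℕ => (m : ℂ) * ((μ : ℂ) + m) * (cf μ m : ℂ) * z ^ m) (z * K μ z) := by
  have h3 := (hasSum_K h z).mul_left z
  have h4 : (fun m : ℕ => z * ((cf μ m : ℂ) * z ^ m)) =
      fun m : ℕ => ((m + 1 : ℕ) : ℂ) * ((μ : ℂ) + (m + 1 : ℕ)) * (cf μ (m + 1) : ℂ) * z ^ (m + 1) := by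
    funext m
    have h6 := congrArg (fun t : ℝ => (t : ℂ)) (cf_succ' h m)
    simp only [Complex.ofReal_mul, Complex.ofReal_add, Complex.ofReal_natCast,
      Complex.ofReal_one] at h6
    push_cast
    linear_combination (-z ^ (m + 1)) * h6
  rw [h4] at h3
  have h5 := (hasSum_nat_add_iff
    (f := fun m : ℕ => (m : ℂ) * ((μ : ℂ) + m) * (cf μ m : ℂ) * z ^ m) 1).1 h3
  simpa using h5

/-- the differential equation -/
lemma ode {μ δ : ℝ} (h : Sep μ δ) (z : ℂ) :
    z * (K (μ + 1 + 1) z / ((μ + 1 + 1 : ℝ) : ℂ) / ((μ + 1 : ℝ) : ℂ)) + K (μ + 1) z = K μ z := by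
  have h1 := (hasSum_theta h.succ z).div_const ((μ + 1 : ℝ) : ℂ)
  have h2 := hasSum_K h.succ z
  have h3 := h1.add h2
  have h4 := hasSum_K h z
  have h5 : (fun m : ℕ => (m : ℂ) * (cf (μ + 1) m : ℂ) * z ^ m / ((μ + 1 : ℝ) : ℂ) +
      (cf (μ + 1) m : ℂ) * z ^ m) = fun m : ℕ => (cf μ m : ℂ) * z ^ m := by
    funext m
    have h6 := h.ne
    have h6' : ((μ + 1 : ℝ) : ℂ) ≠ 0 := by exact_mod_cast h6
    have e : ((m : ℝ) / (μ + 1) + 1) * cf (μ + 1) m = cf μ m := by
      have h7 := cf_succ h m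
      have h8 := cf_succ' h m
      have h9 : cf (μ + 1) m = (μ + 1) * (((m : ℝ) + 1) * cf μ (m + 1)) := by
        rw [h7]; field_simp
      rw [← h8, h9]
      field_simp
      ring
    have e' := congrArg (fun t : ℝ => (t : ℂ)) e
    simp only [Complex.ofReal_mul, Complex.ofReal_add, Complex.ofReal_natCast,
      Complex.ofReal_one, Complex.ofReal_div] at e'
    have e2 : ((μ + 1 : ℝ) : ℂ) = (μ : ℂ) + 1 := by push_cast; rfl
    rw [e2]
    linear_combination z ^ m * e'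
  rw [h5] at h3
  have h6 := h3.unique h4
  rw [← h6]
  have h7 := h.ne
  have h8 := h.succ.ne
  ring

lemma continuous_K {μ δ : ℝ} (h : Sep μ δ) : Continuous (K μ) :=
  continuous_iff_continuousAt.2 fun z => (hasDeriv_K h z).continuousAt

/-- the bilinear form -/
noncomputable def J (μ : ℝ) (x y : ℂ) : ℂ :=
  ∫ t in (0 : ℝ)..1, ((t ^ μ : ℝ) : ℂ) * (K μ (x * t) * K μ (y * t))

lemma intg {μ : ℝ} (hμ : -1 < μ) {φ : ℝ → ℂ} (hφ : Continuous φ) :
    IntervalIntegrable (fun t : ℝ => ((t ^ μ : ℝ) : ℂ) * φ t) volume 0 1 := by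
  have h1 : IntervalIntegrable (fun t : ℝ => ((t ^ μ : ℝ) : ℂ)) volume 0 1 := by
    have := intervalIntegral.intervalIntegrable_rpow' (a := 0) (b := 1) hμ
    exact ⟨this.1.ofReal, this.2.ofReal⟩
  exact h1.mul_continuousOn hφ.continuousOn

/-- **Lommel's integral.** -/
lemma lommel {μ δ : ℝ} (h : Sep μ δ) (hμ : -1 < μ) (x y : ℂ) :
    (x - y) * J μ x y = x * (K (μ + 1) x / ((μ + 1 : ℝ) : ℂ)) * K μ y -
      y * (K (μ + 1) y / ((μ + 1 : ℝ) : ℂ)) * K μ x := by
  set W : ℝ → ℂ := fun t => ((t ^ (μ + 1) : ℝ) : ℂ) *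
    (x * (K (μ + 1) (x * t) / ((μ + 1 : ℝ) : ℂ)) * K μ (y * t) -
      y * (K (μ + 1) (y * t) / ((μ + 1 : ℝ) : ℂ)) * K μ (x * t)) with hW
  have hc0 := continuous_K h
  have hc1 := continuous_K h.succ
  have hWc : ContinuousOn W (Set.Icc 0 1) := by
    apply Continuous.continuousOn
    have h1 : Continuous (fun t : ℝ => ((t ^ (μ + 1) : ℝ) : ℂ)) :=
      Complex.continuous_ofReal.comp (Real.continuous_rpow_const (by linarith))
    have h2 : Continuous (fun t : ℝ => x * (t : ℂ)) := continuous_const.mul Complex.continuous_ofReal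
    have h3 : Continuous (fun t : ℝ => y * (t : ℂ)) := continuous_const.mul Complex.continuous_ofReal
    refine h1.mul (((continuous_const.mul ((hc1.comp h2).div_const _)).mul (hc0.comp h3)).sub
      ((continuous_const.mul ((hc1.comp h3).div_const _)).mul (hc0.comp h2)))
  have hWd : ∀ t ∈ Set.Ioo (0 : ℝ) 1, HasDerivAt W
      ((x - y) * (((t ^ μ : ℝ) : ℂ) * (K μ (x * t) * K μ (y * t)))) t := by
    intro t ht
    have ht0 : 0 < t := ht.1
    have d0 : HasDerivAt (fun t : ℝ => ((t ^ (μ + 1) : ℝ) : ℂ)) (((μ + 1) * t ^ μ : ℝ) : ℂ) t := by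
      have := (Real.hasDerivAt_rpow_const (x := t) (p := μ + 1) (Or.inl ht0.ne')).ofReal_comp
      rw [add_sub_cancel_right] at this
      exact this
    have lin : ∀ w : ℂ, HasDerivAt (fun t : ℝ => w * (t : ℂ)) w t := by
      intro w
      simpa using ((hasDerivAt_id t).ofReal_comp).const_mul w
    have dK : ∀ w : ℂ, HasDerivAt (fun t : ℝ => K μ (w * t))
        (K (μ + 1) (w * t) / ((μ + 1 : ℝ) : ℂ) * w) t := fun w =>
      HasDerivAt.comp (h₂ := K μ) (h := fun t : ℝ => w * (t : ℂ)) t (hasDeriv_K h (w * t)) (lin w)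
    have dK1 : ∀ w : ℂ, HasDerivAt (fun t : ℝ => K (μ + 1) (w * t) / ((μ + 1 : ℝ) : ℂ))
        (K (μ + 1 + 1) (w * t) / ((μ + 1 + 1 : ℝ) : ℂ) * w / ((μ + 1 : ℝ) : ℂ)) t := fun w =>
      (HasDerivAt.comp (h₂ := K (μ + 1)) (h := fun t : ℝ => w * (t : ℂ)) t
        (hasDeriv_K h.succ (w * t)) (lin w)).div_const _
    have d1 := d0.mul ((((dK1 x).const_mul x).mul (dK y)).sub (((dK1 y).const_mul y).mul (dK x)))
    refine d1.congr_deriv ?_
    have ox := ode h (x * t)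
    have oy := ode h (y * t)
    have e1 : ((t ^ (μ + 1) : ℝ) : ℂ) = ((t ^ μ : ℝ) : ℂ) * (t : ℂ) := by
      rw [Real.rpow_add_one ht0.ne']; push_cast; rfl
    have h7 : ((μ + 1 : ℝ) : ℂ) ≠ 0 := by exact_mod_cast h.ne
    have e2 : (((μ + 1) * t ^ μ : ℝ) : ℂ) = ((μ + 1 : ℝ) : ℂ) * ((t ^ μ : ℝ) : ℂ) := by push_cast; rfl
    rw [e1, e2]
    set a := ((t ^ μ : ℝ) : ℂ)
    set m1 := ((μ + 1 : ℝ) : ℂ)
    set m2 := ((μ + 1 + 1 : ℝ) : ℂ)
    have kx : K (μ + 1) (x * t) = m1 * (K (μ + 1) (x * t) / m1) := by field_simp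
    have ky : K (μ + 1) (y * t) = m1 * (K (μ + 1) (y * t) / m1) := by field_simp
    set px := K (μ + 1) (x * t) / m1
    set py := K (μ + 1) (y * t) / m1
    simp only [Pi.mul_apply, Pi.sub_apply]
    rw [kx] at ox
    rw [ky] at oy
    linear_combination (a * x * K μ (y * t)) * ox - (a * y * K μ (x * t)) * oy
  have hint : IntervalIntegrable
      (fun t : ℝ => (x - y) * (((t ^ μ : ℝ) : ℂ) * (K μ (x * t) * K μ (y * t)))) volume 0 1 := by
    apply IntervalIntegrable.const_mul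
    apply intg hμ
    have h2 : Continuous (fun t : ℝ => x * (t : ℂ)) := continuous_const.mul Complex.continuous_ofReal
    have h3 : Continuous (fun t : ℝ => y * (t : ℂ)) := continuous_const.mul Complex.continuous_ofReal
    exact (hc0.comp h2).mul (hc0.comp h3)
  have key := intervalIntegral.integral_eq_sub_of_hasDerivAt_of_le zero_le_one hWc hWd hint
  rw [intervalIntegral.integral_const_mul] at key
  unfold J
  rw [key, hW]
  have e0 : (0 : ℝ) ^ (μ + 1) = 0 := Real.zero_rpow (by linarith)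
  simp only [Complex.ofReal_one, mul_one, Real.one_rpow, one_mul, e0, Complex.ofReal_zero, zero_mul,
    sub_zero]

/-- real part of the form on the diagonal -/
noncomputable def N (μ : ℝ) (u : ℝ → ℂ) : ℝ := ∫ t in (0 : ℝ)..1, t ^ μ * Complex.normSq (u t)

lemma N_nonneg (μ : ℝ) (u : ℝ → ℂ) : 0 ≤ N μ u := by
  apply intervalIntegral.integral_nonneg zero_le_one
  intro t ht
  exact mul_nonneg (Real.rpow_nonneg ht.1 _) (Complex.normSq_nonneg _)

lemma N_eq (μ : ℝ) (u : ℝ → ℂ) :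
    ((N μ u : ℝ) : ℂ) = ∫ t in (0 : ℝ)..1, ((t ^ μ : ℝ) : ℂ) * (u t * (starRingEnd ℂ) (u t)) := by
  unfold N
  rw [← intervalIntegral.integral_ofReal]
  congr 1
  funext t
  rw [Complex.mul_conj]
  push_cast
  rfl

lemma N_pos {μ : ℝ} (hμ : -1 < μ) (hμ0 : μ ≤ 0) {u : ℝ → ℂ} (hu : Continuous u) (h0 : u 0 ≠ 0) :
    0 < N μ u := by
  have h1 : 0 < ∫ t in (0 : ℝ)..1, Complex.normSq (u t) := by
    apply intervalIntegral.integral_pos zero_lt_one
    · exact (Complex.continuous_normSq.comp hu).continuousOn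
    · intro t _
      exact Complex.normSq_nonneg _
    · exact ⟨0, by simp, Complex.normSq_pos.2 h0⟩
  have h2 : ∫ t in (0 : ℝ)..1, Complex.normSq (u t) ≤ N μ u := by
    unfold N
    apply intervalIntegral.integral_mono_on_of_le_Ioo zero_le_one
    · exact (Complex.continuous_normSq.comp hu).intervalIntegrable _ _
    · exact (intervalIntegral.intervalIntegrable_rpow' hμ).mul_continuousOn
        (Complex.continuous_normSq.comp hu).continuousOn
    · intro t ht
      have h3 : 1 ≤ t ^ μ := Real.one_le_rpow_of_pos_of_le_one_of_nonpos ht.1 ht.2.le hμ0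
      have h4 := Complex.normSq_nonneg (u t)
      nlinarith
  linarith

/-- The equation `B(z) z K'(z) = C(z) K(z)` with `B(z) = b₁ z + b₀` and `C(z) = c₁ z + c₀`. -/
def Zero (μ b₁ b₀ c₁ c₀ : ℝ) (z : ℂ) : Prop :=
  ((b₁ : ℂ) * z + b₀) * (z * (K (μ + 1) z / ((μ + 1 : ℝ) : ℂ))) = ((c₁ : ℂ) * z + c₀) * K μ z

lemma Zero.conj {μ b₁ b₀ c₁ c₀ : ℝ} {z : ℂ} (h : Zero μ b₁ b₀ c₁ c₀ z) :
    Zero μ b₁ b₀ c₁ c₀ ((starRingEnd ℂ) z) := by
  unfold Zero at h ⊢
  have := congrArg (starRingEnd ℂ) h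
  simp only [map_mul, map_add, map_div₀, Complex.conj_ofReal] at this
  rw [K_conj, K_conj]
  exact this

lemma pair {μ δ b₁ b₀ c₁ c₀ M : ℝ} (h : Sep μ δ) (hμ : -1 < μ) (hM : M = c₁ * b₀ - c₀ * b₁) {x y : ℂ}
    (hx : Zero μ b₁ b₀ c₁ c₀ x) (hy : Zero μ b₁ b₀ c₁ c₀ y) (hxy : x ≠ y) :
    ((b₁ : ℂ) * x + b₀) * ((b₁ : ℂ) * y + b₀) * J μ x y = M * K μ x * K μ y := by
  have h1 := lommel h hμ x y
  unfold Zero at hx hy
  have h2 : x - y ≠ 0 := sub_ne_zero.2 hxy
  apply mul_left_cancel₀ h2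
  have hM' : (M : ℂ) = (c₁ : ℂ) * b₀ - c₀ * b₁ := by rw [hM]; push_cast; rfl
  rw [hM']
  linear_combination ((b₁ : ℂ) * x + b₀) * ((b₁ : ℂ) * y + b₀) * h1 +
    ((b₁ : ℂ) * y + b₀) * K μ y * hx - ((b₁ : ℂ) * x + b₀) * K μ x * hy

/-- **Reality of the solutions.** -/
theorem real_zeros {μ δ b₁ b₀ c₁ c₀ M : ℝ} (h : Sep μ δ) (hμ : -1 < μ) (hμ0 : μ ≤ 0)
    (hM : M = c₁ * b₀ - c₀ * b₁) {q : ℝ} (hq : Zero μ b₁ b₀ c₁ c₀ (q : ℂ)) (hG : G μ q ≠ 0)
    (hb : b₁ * q + b₀ ≠ 0) (hbd : ∀ t ∈ Set.Icc (0 : ℝ) 1, |G μ (q * t)| ≤ 1)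
    (hlt : (b₁ * q + b₀) ^ 2 / (1 + μ) < M * G μ q ^ 2) {w : ℂ} (hw : Zero μ b₁ b₀ c₁ c₀ w) :
    w.im = 0 := by
  by_contra him
  set w' := (starRingEnd ℂ) w with hw'
  have hww : w ≠ w' := by
    intro hh
    apply him
    have := congrArg Complex.im hh
    rw [hw', Complex.conj_im] at this
    linarith
  have hwq : w ≠ (q : ℂ) := by
    intro hh
    apply him
    rw [hh, Complex.ofReal_im]
  have hqw' : (q : ℂ) ≠ w' := by
    intro hh
    apply him
    have := congrArg Complex.im hh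
    rw [hw', Complex.conj_im, Complex.ofReal_im] at this
    linarith
  have hKc : K μ w' = (starRingEnd ℂ) (K μ w) := by rw [hw', K_conj]
  have hc0 := continuous_K h
  have hcw : ∀ v : ℂ, Continuous (fun t : ℝ => K μ (v * t)) := fun v =>
    hc0.comp (continuous_const.mul Complex.continuous_ofReal)
  have hconj : ∀ t : ℝ, (starRingEnd ℂ) (K μ (w * t)) = K μ (w' * t) := by
    intro t
    rw [← K_conj, map_mul, Complex.conj_ofReal]
  have hconjq : ∀ t : ℝ, (starRingEnd ℂ) (K μ ((q : ℂ) * t)) = K μ ((q : ℂ) * t) := by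
    intro t
    rw [← K_conj, map_mul, Complex.conj_ofReal, Complex.conj_ofReal]
  -- `K w ≠ 0`
  have hKw : K μ w ≠ 0 := by
    intro h0
    have h1 := lommel h hμ w w'
    rw [hKc, h0, map_zero, mul_zero, mul_zero, sub_zero] at h1
    have h2 : J μ w w' = ((N μ (fun t => K μ (w * t)) : ℝ) : ℂ) := by
      rw [N_eq]
      unfold J
      simp only [hconj]
    have h3 : J μ w w' = 0 := by
      rcases mul_eq_zero.1 h1 with h4 | h4
      · exact absurd h4 (sub_ne_zero.2 hww)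
      · exact h4
    have h4 : 0 < N μ (fun t => K μ (w * t)) := by
      apply N_pos hμ hμ0 (hcw w)
      simp [K_zero]
    rw [h2] at h3
    have h5 : N μ (fun t => K μ (w * t)) = 0 := by exact_mod_cast h3
    linarith
  set B : ℂ := (b₁ : ℂ) * w + b₀ with hB
  set B' : ℂ := (b₁ : ℂ) * w' + b₀ with hB'
  have hBc : (starRingEnd ℂ) B = B' := by
    rw [hB, hB', map_add, map_mul, Complex.conj_ofReal, Complex.conj_ofReal]
  set Bq : ℂ := (b₁ : ℂ) * q + b₀ with hBq
  have hBq' : Bq = ((b₁ * q + b₀ : ℝ) : ℂ) := by rw [hBq]; push_cast; rfl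
  have hBq0 : Bq ≠ 0 := by rw [hBq']; exact_mod_cast hb
  have hKq : K μ (q : ℂ) = (G μ q : ℂ) := K_ofReal μ q
  have hKq0 : K μ (q : ℂ) ≠ 0 := by rw [hKq]; exact_mod_cast hG
  have p1 := pair h hμ hM hw hw.conj hww
  have p2 := pair h hμ hM hw hq hwq
  have p3 := pair h hμ hM hq hw.conj hqw'
  rw [← hB, ← hw', ← hB'] at p1
  rw [← hB, ← hBq] at p2
  rw [← hw', ← hBq, ← hB'] at p3
  -- the test function
  set c : ℂ := Bq * K μ w / K μ q with hc
  have hcc : (starRingEnd ℂ) c = Bq * K μ w' / K μ q := by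
    rw [hc, map_div₀, map_mul, hBq', Complex.conj_ofReal, hKq, Complex.conj_ofReal, hKc]
  set u : ℝ → ℂ := fun t => B * K μ (w * t) - c * K μ ((q : ℂ) * t) with hu
  have hNn := N_nonneg μ u
  have hexp : ((N μ u : ℝ) : ℂ) = B * B' * J μ w w' - B * (starRingEnd ℂ) c * J μ w q -
      c * B' * J μ q w' + c * (starRingEnd ℂ) c * J μ q q := by
    rw [N_eq]
    unfold J
    rw [← intervalIntegral.integral_const_mul, ← intervalIntegral.integral_const_mul,
      ← intervalIntegral.integral_const_mul, ← intervalIntegral.integral_const_mul]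
    have hi : ∀ k v v' : ℂ, IntervalIntegrable
        (fun x : ℝ => k * (((x ^ μ : ℝ) : ℂ) * (K μ (v * x) * K μ (v' * x)))) volume 0 1 :=
      fun k v v' => (intg hμ (φ := fun x : ℝ => K μ (v * x) * K μ (v' * x))
        ((hcw v).mul (hcw v'))).const_mul k
    have i1 := hi (B * B') w w'
    have i2 := hi (B * (starRingEnd ℂ) c) w q
    have i3 := hi (c * B') q w'
    have i4 := hi (c * (starRingEnd ℂ) c) q q
    rw [← intervalIntegral.integral_sub i1 i2, ← intervalIntegral.integral_sub (i1.sub i2) i3,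
      ← intervalIntegral.integral_add ((i1.sub i2).sub i3) i4]
    congr 1
    funext t
    rw [hu]
    simp only [map_sub, map_mul, hconj, hconjq, hBc]
    ring
  -- the diagonal value at `q`
  have hjq : ∃ j : ℝ, J μ q q = (j : ℂ) ∧ j ≤ 1 / (1 + μ) := by
    refine ⟨N μ (fun t => K μ ((q : ℂ) * t)), ?_, ?_⟩
    · rw [N_eq]
      unfold J
      simp only [hconjq]
    · have h1 : ∫ t in (0 : ℝ)..1, t ^ μ = 1 / (1 + μ) := by
        rw [integral_rpow (Or.inl hμ), Real.one_rpow, Real.zero_rpow (by linarith)]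
        ring
      rw [← h1]
      unfold N
      apply intervalIntegral.integral_mono_on zero_le_one
      · exact (intervalIntegral.intervalIntegrable_rpow' hμ).mul_continuousOn
          (Complex.continuous_normSq.comp (hcw q)).continuousOn
      · exact intervalIntegral.intervalIntegrable_rpow' hμ
      · intro t ht
        have h2 := hbd t ht
        have h3 : K μ ((q : ℂ) * t) = (G μ (q * t) : ℂ) := by
          rw [← K_ofReal]; push_cast; rfl
        change t ^ μ * Complex.normSq (K μ ((q : ℂ) * t)) ≤ t ^ μ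
        rw [h3, Complex.normSq_ofReal]
        have h4 : G μ (q * t) * G μ (q * t) ≤ 1 := by
          have := abs_le.1 h2
          nlinarith
        have h5 : 0 ≤ t ^ μ := Real.rpow_nonneg ht.1 _
        nlinarith
  obtain ⟨j, hj1, hj2⟩ := hjq
  have hfin : ((N μ u : ℝ) : ℂ) * K μ q ^ 2 = K μ w * K μ w' * (-M * K μ q ^ 2 + Bq ^ 2 * J μ q q) := by
    rw [hexp, hcc, p1]
    have q2 : B * J μ w q = M * K μ w * K μ q / Bq := by
      rw [eq_div_iff hBq0]; linear_combination p2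
    have q3 : B' * J μ q w' = M * K μ q * K μ w' / Bq := by
      rw [eq_div_iff hBq0]; linear_combination p3
    have e1 : M * K μ w * K μ w' - B * (Bq * K μ w' / K μ q) * J μ w q - c * B' * J μ q w' +
        c * (Bq * K μ w' / K μ q) * J μ q q = M * K μ w * K μ w' - (Bq * K μ w' / K μ q) *
          (B * J μ w q) - c * (B' * J μ q w') + c * (Bq * K μ w' / K μ q) * J μ q q := by ring
    rw [e1, q2, q3, hc]
    field_simp
    ring
  have hnn : K μ w * K μ w' = ((Complex.normSq (K μ w) : ℝ) : ℂ) := by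
    rw [hKc, Complex.mul_conj]
  rw [hnn, hKq, hBq', hj1] at hfin
  have hreal : N μ u * G μ q ^ 2 =
      Complex.normSq (K μ w) * (-M * G μ q ^ 2 + (b₁ * q + b₀) ^ 2 * j) := by
    exact_mod_cast hfin
  have h1 : 0 < Complex.normSq (K μ w) := Complex.normSq_pos.2 hKw
  have h2 : (b₁ * q + b₀) ^ 2 * j ≤ (b₁ * q + b₀) ^ 2 / (1 + μ) := by
    rw [div_eq_mul_one_div]
    exact mul_le_mul_of_nonneg_left hj2 (sq_nonneg _)
  have h3 : -M * G μ q ^ 2 + (b₁ * q + b₀) ^ 2 * j < 0 := by linarith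
  have h4 := mul_neg_of_pos_of_neg h1 h3
  have h5 : 0 ≤ N μ u * G μ q ^ 2 := mul_nonneg hNn (sq_nonneg _)
  linarith

end Pool.Agent.X115.BZ
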