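import Mathlib
import Pool.Agent.X115.BZ

/-!
# The zeros of the first two derivatives of a Bessel function

Series of the relevant combinations, and elementary bounds.
-/

set_option autoImplicit false

open Finset Filter Topology Pool.Agent.X115.FCP MeasureTheory

namespace Pool.Agent.X115.BZ

lemma cf_nonneg {μ : ℝ} (hμ : -1 < μ) (m : ℕ) : 0 ≤ cf μ m := by
  have h4 : 0 < poch μ m := by
    unfold poch
    apply prod_pos
    intro i _
    have : (0 : ℝ) ≤ i := Nat.cast_nonneg i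
    linarith
  unfold cf
  positivity

lemma sep_of {μ : ℝ} (hμ : -1 / 100 ≤ μ) : Sep μ (1 / 2) := by
  refine ⟨by norm_num, fun i => ?_⟩
  have : (0 : ℝ) ≤ i := Nat.cast_nonneg i
  rw [abs_of_pos (by linarith)]
  linarith

lemma G_bound {μ x : ℝ} (hμ : -1 / 100 ≤ μ) (hx : |x| ≤ 1 / 10) :
    |G μ x - (1 + x / (μ + 1))| ≤ 26 / 100 * x ^ 2 := by
  have h := sep_of hμ
  have h1 := hasSum_G h x
  have h2 : HasSum (fun m => cf μ (m + 2) * x ^ (m + 2)) (G μ x - ∑ m ∈ range 2, cf μ m * x ^ m) :=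
    (hasSum_nat_add_iff' 2).2 h1
  have e0 : ∑ m ∈ range 2, cf μ m * x ^ m = 1 + x / (μ + 1) := by
    rw [sum_range_succ, sum_range_one]
    simp only [cf, poch, pow_zero, mul_one, pow_one, Nat.factorial, Nat.cast_one, range_zero,
      prod_empty, range_one, prod_singleton, Nat.cast_zero, add_zero, one_mul, div_one]
    norm_num
    ring
  rw [e0] at h2
  have h3 : ∀ k : ℕ, |cf μ (k + 2) * x ^ (k + 2)| ≤ (254 / 1000 * x ^ 2) * (1 / 50) ^ k := by
    intro k
    induction k with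
    | zero =>
      have c1 := cf_succ' h 1
      have c0 := cf_succ' h 0
      have c00 : cf μ 0 = 1 := by simp [cf, poch]
      rw [c00] at c0
      have n2 := cf_nonneg (by linarith : -1 < μ) 2
      have n1 := cf_nonneg (by linarith : -1 < μ) 1
      norm_num at c0 c1
      have e1 : cf μ 2 ≤ 254 / 1000 := by
        have p1 : (99 / 100 : ℝ) ≤ μ + 1 := by linarith
        have p2 : (199 / 100 : ℝ) ≤ μ + 1 + 1 := by linarith
        have q1 : (μ + 1) * (2 * (μ + 1 + 1) * cf μ 2) = 1 := by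
          rw [c1]; linarith
        have p3 : (99 / 100 : ℝ) * (199 / 100) ≤ (μ + 1) * (μ + 1 + 1) :=
          mul_le_mul p1 p2 (by norm_num) (by linarith)
        nlinarith
      rw [pow_zero, mul_one, zero_add, abs_mul, abs_of_nonneg n2, abs_of_nonneg (sq_nonneg x)]
      exact mul_le_mul_of_nonneg_right e1 (sq_nonneg x)
    | succ k ih =>
      have c := cf_succ' h (k + 2)
      have hk : (0 : ℝ) ≤ k := Nat.cast_nonneg k
      have n1 := cf_nonneg (by linarith : -1 < μ) (k + 2 + 1)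
      have n0 := cf_nonneg (by linarith : -1 < μ) (k + 2)
      have e1 : cf μ (k + 2 + 1) ≤ 1 / 5 * cf μ (k + 2) := by
        rw [← c]
        push_cast
        have : (5 : ℝ) ≤ ((k : ℝ) + 2 + 1) * (μ + 1 + (k + 2)) := by nlinarith
        nlinarith
      have e2 : k + 1 + 2 = k + 2 + 1 := by ring
      rw [e2, abs_mul, pow_succ x, abs_mul, abs_of_nonneg n1]
      rw [abs_mul, abs_of_nonneg n0] at ih
      calc cf μ (k + 2 + 1) * (|x ^ (k + 2)| * |x|) ≤
          (1 / 5 * cf μ (k + 2)) * (|x ^ (k + 2)| * (1 / 10)) := by gcongr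
        _ = 1 / 50 * (cf μ (k + 2) * |x ^ (k + 2)|) := by ring
        _ ≤ 1 / 50 * (254 / 1000 * x ^ 2 * (1 / 50) ^ k) := by gcongr
        _ = _ := by ring
  have h5 := (hasSum_geometric_of_lt_one (by norm_num : (0:ℝ) ≤ 1 / 50)
    (by norm_num : (1 / 50 : ℝ) < 1)).mul_left (254 / 1000 * x ^ 2)
  rw [← h2.tsum_eq, ← Real.norm_eq_abs]
  have h6 := tsum_of_norm_bounded h5 (fun k => by rw [Real.norm_eq_abs]; exact h3 k)
  refine h6.trans ?_
  norm_num
  nlinarith [sq_nonneg x]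

/-- `Σ (ν + 2 m) x^m / (m! (ν + 1)_m)` -/
noncomputable def S1 (ν : ℝ) (x : ℂ) : ℂ := ν * K ν x + 2 * (x * (K (ν + 1) x / ((ν + 1 : ℝ) : ℂ)))

/-- `Σ (ν + 2 m) (ν + 2 m - 1) x^m / (m! (ν + 1)_m)` -/
noncomputable def S2 (ν : ℝ) (x : ℂ) : ℂ :=
  4 * (x * K ν x) + (ν * (ν - 1)) * K ν x - 2 * (x * (K (ν + 1) x / ((ν + 1 : ℝ) : ℂ)))

lemma hasSum_S1 {ν δ : ℝ} (h : Sep ν δ) (x : ℂ) :
    HasSum (fun m : ℕ => (((ν + 2 * m) * cf ν m : ℝ) : ℂ) * x ^ m) (S1 ν x) := by
  have h1 := ((hasSum_K h x).mul_left (ν : ℂ)).add ((hasSum_theta h x).mul_left 2)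
  have h2 : (fun m : ℕ => (((ν + 2 * m) * cf ν m : ℝ) : ℂ) * x ^ m) = fun m : ℕ =>
      (ν : ℂ) * ((cf ν m : ℂ) * x ^ m) + 2 * ((m : ℂ) * (cf ν m : ℂ) * x ^ m) := by
    funext m; push_cast; ring
  rw [h2]; exact h1

lemma hasSum_S2 {ν δ : ℝ} (h : Sep ν δ) (x : ℂ) :
    HasSum (fun m : ℕ => (((ν + 2 * m) * (ν + 2 * m - 1) * cf ν m : ℝ) : ℂ) * x ^ m) (S2 ν x) := by
  have h1 := (((hasSum_zK h x).mul_left 4).add ((hasSum_K h x).mul_left ((ν : ℂ) * (ν - 1)))).sub
    ((hasSum_theta h x).mul_left 2)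
  have h2 : (fun m : ℕ => (((ν + 2 * m) * (ν + 2 * m - 1) * cf ν m : ℝ) : ℂ) * x ^ m) = fun m : ℕ =>
      4 * ((m : ℂ) * ((ν : ℂ) + m) * (cf ν m : ℂ) * x ^ m) + (ν : ℂ) * (ν - 1) *
        ((cf ν m : ℂ) * x ^ m) - 2 * ((m : ℂ) * (cf ν m : ℂ) * x ^ m) := by
    funext m; push_cast; ring
  rw [h2]; exact h1

lemma zero_of_S1 {ν δ : ℝ} (h : Sep ν δ) {x : ℂ} (hx : S1 ν x = 0) :
    Zero (ν + 1) 0 (-ν) 2 (ν * (ν + 1)) x := by
  have h1 := ode h x
  have h2 : ((ν + 1 : ℝ) : ℂ) ≠ 0 := by exact_mod_cast h.ne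
  unfold S1 at hx
  unfold Zero
  set k := K (ν + 1) x
  set k' := K (ν + 1 + 1) x / ((ν + 1 + 1 : ℝ) : ℂ)
  have e3 : ((ν + 1 : ℝ) : ℂ) = (ν : ℂ) + 1 := by push_cast; rfl
  rw [e3] at h1 h2 hx
  rw [← h1] at hx
  have h3 : ((ν : ℂ) + 1) * (ν * (x * (k' / ((ν : ℂ) + 1)) + k) +
      2 * (x * (k / ((ν : ℂ) + 1)))) = 0 := by
    rw [hx, mul_zero]
  have h4 : ((ν : ℂ) + 1) * (ν * (x * (k' / ((ν : ℂ) + 1)) + k) +
      2 * (x * (k / ((ν : ℂ) + 1)))) = ν * (x * k') + (ν * (ν + 1) + 2 * x) * k := by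
    field_simp
    ring
  rw [h4] at h3
  push_cast
  linear_combination (-1 : ℂ) * h3

lemma zero_of_S2 {ν δ : ℝ} (h : Sep ν δ) {x : ℂ} (hx : S2 ν x = 0) :
    Zero (ν + 1) 4 (ν * (ν - 1)) (2 - 4 * (ν + 1)) (-((ν + 1) * (ν * (ν - 1)))) x := by
  have h1 := ode h x
  have h2 : ((ν + 1 : ℝ) : ℂ) ≠ 0 := by exact_mod_cast h.ne
  unfold S2 at hx
  unfold Zero
  set k := K (ν + 1) x
  set k' := K (ν + 1 + 1) x / ((ν + 1 + 1 : ℝ) : ℂ)
  have e3 : ((ν + 1 : ℝ) : ℂ) = (ν : ℂ) + 1 := by push_cast; rfl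
  rw [e3] at h1 h2 hx
  rw [← h1] at hx
  have h3 : ((ν : ℂ) + 1) * (4 * (x * (x * (k' / ((ν : ℂ) + 1)) + k)) +
      (ν * (ν - 1)) * (x * (k' / ((ν : ℂ) + 1)) + k) - 2 * (x * (k / ((ν : ℂ) + 1)))) = 0 := by
    rw [hx, mul_zero]
  have h4 : ((ν : ℂ) + 1) * (4 * (x * (x * (k' / ((ν : ℂ) + 1)) + k)) +
      (ν * (ν - 1)) * (x * (k' / ((ν : ℂ) + 1)) + k) - 2 * (x * (k / ((ν : ℂ) + 1)))) =
      (4 * x + ν * (ν - 1)) * (x * k') + (((ν : ℂ) + 1) * (4 * x + ν * (ν - 1)) - 2 * x) * k := by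
    field_simp
    ring
  rw [h4] at h3
  push_cast
  linear_combination h3

/-- a real root of the equation in an interval -/
lemma exists_root {μ b₁ b₀ c₁ c₀ a b : ℝ} (hμ : -1 / 100 ≤ μ) (hab : a ≤ b)
    (ha : (c₁ * a + c₀) * G μ a - (b₁ * a + b₀) * (a * (G (μ + 1) a / (μ + 1))) ≤ 0)
    (hb : 0 ≤ (c₁ * b + c₀) * G μ b - (b₁ * b + b₀) * (b * (G (μ + 1) b / (μ + 1)))) :
    ∃ q ∈ Set.Icc a b, Zero μ b₁ b₀ c₁ c₀ (q : ℂ) := by
  have h := sep_of hμ
  have c0 : Continuous (G μ) := continuous_iff_continuousAt.2 fun z => (hasDeriv_G h z).continuousAt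
  have c1 : Continuous (G (μ + 1)) :=
    continuous_iff_continuousAt.2 fun z => (hasDeriv_G h.succ z).continuousAt
  have hc : Continuous (fun x : ℝ =>
      (c₁ * x + c₀) * G μ x - (b₁ * x + b₀) * (x * (G (μ + 1) x / (μ + 1)))) := by
    fun_prop
  obtain ⟨q, hq, hq0⟩ := intermediate_value_Icc hab hc.continuousOn ⟨ha, hb⟩
  refine ⟨q, hq, ?_⟩
  unfold Zero
  rw [K_ofReal, K_ofReal]
  have h1 : (b₁ * q + b₀) * (q * (G (μ + 1) q / (μ + 1))) = (c₁ * q + c₀) * G μ q := by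
    simp only at hq0
    linarith
  have h2 := congrArg (fun t : ℝ => (t : ℂ)) h1
  simp only [Complex.ofReal_mul, Complex.ofReal_add, Complex.ofReal_div, Complex.ofReal_one] at h2
  push_cast
  exact h2

/-- the case `n = 1` -/
theorem real_one {ν : ℝ} (h1 : -101 / 100 ≤ ν) (h2 : ν < -1) {x : ℂ} (hx : S1 ν x = 0) :
    x.im = 0 := by
  have hs : Sep ν (-1 - ν) := by
    refine ⟨by linarith, fun i => ?_⟩
    rcases Nat.eq_zero_or_pos i with h | h
    · rw [h, Nat.cast_zero, add_zero, abs_of_neg (by linarith)]; linarith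
    · have : (1 : ℝ) ≤ i := by exact_mod_cast h
      rw [abs_of_pos (by linarith)]; linarith
  have hμ : -1 / 100 ≤ ν + 1 := by linarith
  have hs1 := sep_of hμ
  have hw := zero_of_S1 hs hx
  have hG0 : G (ν + 1) 0 = 1 := by
    have := G_bound hμ (x := 0) (by norm_num)
    norm_num at this
    linarith
  obtain ⟨q, ⟨hq1, hq2⟩, hq⟩ := exists_root (μ := ν + 1) (b₁ := 0) (b₀ := -ν) (c₁ := 2)
    (c₀ := ν * (ν + 1)) (a := -1 / 10) (b := 0) hμ (by norm_num) (by
      have g1 := abs_le.1 (G_bound hμ (x := -1 / 10) (by rw [abs_of_neg (by norm_num)]; norm_num))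
      have g2 := abs_le.1 (G_bound (μ := ν + 1 + 1) (by linarith) (x := -1 / 10)
        (by rw [abs_of_neg (by norm_num)]; norm_num))
      have k1 : -(102 / 1000 : ℝ) ≤ (-1 / 10) / (ν + 1 + 1) := by
        rw [le_div_iff₀ (by linarith)]; linarith
      have k2 : (-1 / 10) / (ν + 1 + 1 + 1) ≤ -(49 / 1000 : ℝ) := by
        rw [div_le_iff₀ (by linarith)]; linarith
      have l1 : (89 / 100 : ℝ) ≤ G (ν + 1) (-1 / 10) := by norm_num at g1; linarith [g1.1]
      have l2 : G (ν + 1 + 1) (-1 / 10) ≤ 96 / 100 := by norm_num at g2; linarith [g2.2]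
      have l3 : G (ν + 1 + 1) (-1 / 10) / (ν + 1 + 1) ≤ 97 / 99 := by
        rw [div_le_iff₀ (by linarith)]; linarith
      have l4 : ν * (ν + 1) ≤ 2 / 100 := by nlinarith
      nlinarith) (by
      rw [hG0]
      nlinarith)
  have hqa : |q| ≤ 1 / 10 := by rw [abs_of_nonpos hq2]; linarith
  have gq := abs_le.1 (G_bound hμ hqa)
  have kq : -(102 / 1000 : ℝ) ≤ q / (ν + 1 + 1) := by
    rw [le_div_iff₀ (by linarith)]; linarith
  have hq2' : q ^ 2 ≤ 1 / 100 := by nlinarith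
  have lq : (89 / 100 : ℝ) ≤ G (ν + 1) q := by linarith [gq.1]
  refine real_zeros hs1 (by linarith) (by linarith) (M := -2 * ν) (by ring) hq (by linarith)
    (by linarith) ?_ ?_ hw
  · intro t ht
    have hqt : |q * t| ≤ 1 / 10 := by
      rw [abs_mul, abs_of_nonneg ht.1]
      calc |q| * t ≤ 1 / 10 * 1 := mul_le_mul hqa ht.2 ht.1 (by norm_num)
        _ = _ := by norm_num
    have gt := abs_le.1 (G_bound hμ hqt)
    have s1 : q * t ≤ 0 := mul_nonpos_of_nonpos_of_nonneg hq2 ht.1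
    have s1' : -(1 / 10) ≤ q * t := by have := (abs_le.1 hqt).1; linarith
    have s2 : q * t / (ν + 1 + 1) ≤ q * t := by
      rw [div_le_iff₀ (by linarith)]; nlinarith
    have s3 : -(102 / 1000 : ℝ) ≤ q * t / (ν + 1 + 1) := by
      rw [le_div_iff₀ (by linarith)]; linarith
    rw [abs_le]
    constructor
    · nlinarith [gt.1]
    · nlinarith [gt.2]
  · rw [zero_mul, zero_add, div_lt_iff₀ (by linarith)]
    have a1 : (79 / 100 : ℝ) ≤ G (ν + 1) q ^ 2 := by nlinarith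
    have a2 : -2 * ν * (79 / 100) ≤ -2 * ν * G (ν + 1) q ^ 2 :=
      mul_le_mul_of_nonneg_left a1 (by linarith)
    have a3 : -2 * ν * (79 / 100) * (99 / 100) ≤ -2 * ν * G (ν + 1) q ^ 2 * (1 + (ν + 1)) :=
      mul_le_mul a2 (by linarith) (by norm_num) (by nlinarith)
    nlinarith

/-- the case `n = 2` -/
theorem real_two {x : ℂ} (hx : S2 (-101 / 100) x = 0) : x.im = 0 := by
  have hs : FCP.Sep (-101 / 100) (1 / 100) := by
    refine ⟨by norm_num, fun i => ?_⟩
    rcases Nat.eq_zero_or_pos i with h | h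
    · rw [h]; norm_num
    · have : (1 : ℝ) ≤ i := by exact_mod_cast h
      rw [abs_of_pos (by linarith)]; linarith
  have hw := zero_of_S2 hs hx
  norm_num at hw
  have hμ : (-1 / 100 : ℝ) ≤ -1 / 100 := le_rfl
  have hs1 := sep_of hμ
  obtain ⟨q, ⟨hq1, hq2⟩, hq⟩ := exists_root (μ := -1 / 100) (b₁ := 4) (b₀ := 20301 / 10000)
    (c₁ := 51 / 25) (c₀ := 20301 / 1000000) (a := -1 / 10) (b := -1 / 20) hμ (by norm_num) (by
      have g1 := abs_le.1 (G_bound hμ (x := -1 / 10) (by rw [abs_of_neg (by norm_num)]; norm_num))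
      have g2 := abs_le.1 (G_bound (μ := -1 / 100 + 1) (by norm_num) (x := -1 / 10)
        (by rw [abs_of_neg (by norm_num)]; norm_num))
      norm_num at g1 g2 ⊢
      linarith [g1.1, g2.2]) (by
      have g1 := abs_le.1 (G_bound hμ (x := -1 / 20) (by rw [abs_of_neg (by norm_num)]; norm_num))
      have g2 := abs_le.1 (G_bound (μ := -1 / 100 + 1) (by norm_num) (x := -1 / 20)
        (by rw [abs_of_neg (by norm_num)]; norm_num))
      norm_num at g1 g2 ⊢
      linarith [g1.2, g2.1])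
  have hqa : |q| ≤ 1 / 10 := by rw [abs_of_nonpos (by linarith)]; linarith
  have gq := abs_le.1 (G_bound hμ hqa)
  have hq3 : q ^ 2 ≤ -(1 / 10) * q := by nlinarith
  have lq : 1 + (1037 / 1000 : ℝ) * q ≤ G (-1 / 100) q := by
    have := gq.1
    norm_num at this
    nlinarith
  have lq' : (8 / 10 : ℝ) ≤ G (-1 / 100) q := by linarith
  refine real_zeros hs1 (by norm_num) (by norm_num) (M := 20301 / 5000) (by norm_num) hq
    (by linarith) (by linarith) ?_ ?_ ?_
  · intro t ht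
    have hqt : |q * t| ≤ 1 / 10 := by
      rw [abs_mul, abs_of_nonneg ht.1]
      calc |q| * t ≤ 1 / 10 * 1 := mul_le_mul hqa ht.2 ht.1 (by norm_num)
        _ = _ := by norm_num
    have gt := abs_le.1 (G_bound hμ hqt)
    have s1 : q * t ≤ 0 := mul_nonpos_of_nonpos_of_nonneg (by linarith) ht.1
    have s1' : -(1 / 10) ≤ q * t := by have := (abs_le.1 hqt).1; linarith
    norm_num at gt
    rw [abs_le]
    constructor
    · nlinarith [gt.1]
    · nlinarith [gt.2]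
  · rw [div_lt_iff₀ (by norm_num)]
    have a1 : 0 < 4 * q + 20301 / 10000 := by linarith
    have a2 : 4 * q + 20301 / 10000 < 20048 / 10000 * G (-1 / 100) q := by linarith
    have a3 : (4 * q + 20301 / 10000) ^ 2 < (20048 / 10000 * G (-1 / 100) q) ^ 2 :=
      pow_lt_pow_left₀ a2 a1.le (by norm_num)
    have a4 : 0 < G (-1 / 100) q ^ 2 := by positivity
    norm_num at *
    nlinarith
  · convert hw using 1
    norm_num

lemma gamma_poch {ν : ℝ} (hν : ∀ k : ℤ, ν ≠ k) (m : ℕ) :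
    Real.Gamma (ν + m + 1) = poch ν m * Real.Gamma (ν + 1) := by
  induction m with
  | zero => simp [poch]
  | succ m ih =>
    have e : ν + ((m + 1 : ℕ) : ℝ) + 1 = (ν + m + 1) + 1 := by push_cast; ring
    rw [e, Real.Gamma_add_one, ih, poch_succ]
    · ring
    · intro hz
      apply hν (-(m : ℤ) - 1)
      push_cast
      linarith

lemma gamma_ne {ν : ℝ} (hν : ∀ k : ℤ, ν ≠ k) : Real.Gamma (ν + 1) ≠ 0 := by
  apply Real.Gamma_ne_zero
  intro m hm
  apply hν (-(m : ℤ) - 1)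
  push_cast
  linarith

lemma coeff_eq {ν : ℝ} (hν : ∀ k : ℤ, ν ≠ k) (m : ℕ) :
    1 / (m.factorial * Real.Gamma (ν + m + 1)) = 1 / Real.Gamma (ν + 1) * cf ν m := by
  rw [gamma_poch hν m]
  unfold cf
  have h1 := gamma_ne hν
  have h2 : poch ν m ≠ 0 := by
    unfold poch
    rw [prod_ne_zero_iff]
    intro i _ h0
    apply hν (-(i : ℤ) - 1)
    push_cast
    linarith
  have h3 : (m.factorial : ℝ) ≠ 0 := by positivity
  field_simp

/-- the sign on the positive axis -/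
lemma S1_neg {ν : ℝ} (h1 : -101 / 100 ≤ ν) (h2 : ν < -1) {x : ℝ} (hx : 0 ≤ x) :
    S1 ν (x : ℂ) ≠ 0 := by
  have hs : Sep ν (-1 - ν) := by
    refine ⟨by linarith, fun i => ?_⟩
    rcases Nat.eq_zero_or_pos i with h | h
    · rw [h, Nat.cast_zero, add_zero, abs_of_neg (by linarith)]; linarith
    · have : (1 : ℝ) ≤ i := by exact_mod_cast h
      rw [abs_of_pos (by linarith)]; linarith
  have h3 := hasSum_S1 hs (x : ℂ)
  have h4 : HasSum (fun m : ℕ => (ν + 2 * m) * cf ν m * x ^ m) (S1 ν (x : ℂ)).re := by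
    have := Complex.hasSum_re h3
    refine this.congr_fun ?_ |> fun t => t
    intro m
    norm_cast
  have h5 : ∀ m : ℕ, (ν + 2 * m) * cf ν m * x ^ m ≤ 0 := by
    intro m
    rcases Nat.eq_zero_or_pos m with h | h
    · rw [h]
      simp only [cf, poch, Nat.cast_zero, range_zero, prod_empty]
      norm_num
      linarith
    · obtain ⟨k, rfl⟩ : ∃ k, m = k + 1 := ⟨m - 1, by omega⟩
      have h6 : poch ν (k + 1) < 0 := by
        rw [poch_succ']
        apply mul_neg_of_neg_of_pos (by linarith)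
        unfold poch
        apply prod_pos
        intro i _
        have : (0 : ℝ) ≤ i := Nat.cast_nonneg i
        linarith
      have h7 : cf ν (k + 1) ≤ 0 := by
        unfold cf
        apply div_nonpos_of_nonneg_of_nonpos zero_le_one
        exact mul_nonpos_of_nonneg_of_nonpos (by positivity) h6.le
      have h8 : 0 ≤ ν + 2 * ((k + 1 : ℕ) : ℝ) := by
        have : (0 : ℝ) ≤ k := Nat.cast_nonneg k
        push_cast; linarith
      exact mul_nonpos_of_nonpos_of_nonneg (mul_nonpos_of_nonneg_of_nonpos h8 h7)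
        (pow_nonneg hx _)
  intro h0
  rw [h0, Complex.zero_re] at h4
  have h7 := le_hasSum h4.neg 0 (fun j _ => neg_nonneg.2 (h5 j))
  simp only [cf, poch, Nat.cast_zero, range_zero, prod_empty] at h7
  norm_num at h7
  linarith

end Pool.Agent.X115.BZ
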